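import Pool.Agent.W_7d29a1_Z17.CoinA17
import Mathlib.Probability.Independence.InfinitePi

/-!
STORM Z (MP_7d29a1_pr), leaf Z3, part B: (DL), near ties are decoupled from everything else. (helper17)
-/

namespace Pool.Agent.W_7d29a1_Z17

open MeasureTheory ProbabilityTheory Filter Topology
open Pool.Agent.W_7d29a1_F

noncomputable section

variable {μ : Measure ℝ} [IsProbabilityMeasure μ]

/-- **Many coordinates.** -/
theorem many_sites {a b : ℝ} (hab : a < b) (D : Finset Pt) {H : Env → ℝ} {G : Pt → Env → ℝ} (hH : Measurable H)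
    (hG : ∀ v ∈ D, Measurable (G v)) (hH0 : ∀ η, 0 ≤ H η) (hH1 : ∀ η, H η ≤ 1) (hG0 : ∀ v ∈ D, ∀ η, 0 ≤ G v η)
    (hGi : ∀ v ∈ D, Integrable (G v) (law μ))
    (hanti : ∀ v ∈ D, ∀ η t, η v ≤ t → H (Function.update η v t) ≤ H η)
    (hsens : ∀ v ∈ D, ∀ η t, G v η * min |η v - t| 1 ≤ |H η - H (Function.update η v t)|) {u : ℝ} (hu : 0 ≤ u) :
    kap μ a b * ∫ η, ∑ v ∈ D, G v η ∂(law μ) ≤
      2 * (b - a) * (u * √(D.card : ℝ) * ∫ η, H η ∂(law μ) + D.card * Real.exp (-2 * u ^ 2)) := by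
  classical
  have hba : 0 < b - a := by linarith
  rcases D.eq_empty_or_nonempty with hD | hD
  · subst hD
    simp
  have hcard : (0 : ℝ) < D.card := by exact_mod_cast hD.card_pos
  have hev : ∀ v : Pt, Measurable fun η : Env => η v := fun v => measurable_pi_apply v
  have hph := ph_meas (μ := μ) a b
  have hpab := ph_abs (μ := μ) hab.le
  have he : ∀ v : Pt, MeasurePreserving (fun ξ : Env => ξ v) (law μ) μ := fun v => by
    unfold law
    exact measurePreserving_eval_infinitePi _ _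
  -- the sum over the sites
  have h1 : kap μ a b * ∫ η, ∑ v ∈ D, G v η ∂(law μ) ≤
      2 * ∑ v ∈ D, ∫ η, H η * (-ph μ a b (η v)) ∂(law μ) := by
    rw [integral_finset_sum _ hGi, Finset.mul_sum, Finset.mul_sum]
    refine Finset.sum_le_sum fun v hv => ?_
    have h := one_site (μ := μ) hab hH (hG v hv) hH0 hH1 (hG0 v hv) (hanti v hv) (hsens v hv) (hGi v hv)
    have e : ∫ η, H η * (-ph μ a b (η v)) ∂(law μ) = -∫ η, H η * ph μ a b (η v) ∂(law μ) := by
      rw [← integral_neg]
      refine integral_congr_ae (ae_of_all _ fun η => ?_)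
      simp
    rw [e]
    linarith
  have hHab : ∀ η, |H η| ≤ 1 := fun η => abs_le.2 ⟨by linarith [hH0 η], hH1 η⟩
  have iv : ∀ v ∈ D, Integrable (fun η => H η * (-ph μ a b (η v))) (law μ) := by
    intro v _
    refine Integrable.of_mem_Icc (-(b - a)) (b - a) (hH.mul (hph.comp (hev v)).neg).aemeasurable
      (ae_of_all _ fun η => ?_)
    have : |H η * (-ph μ a b (η v))| ≤ b - a := by
      rw [abs_mul, abs_neg]
      calc _ ≤ 1 * (b - a) := mul_le_mul (hHab η) (hpab _) (abs_nonneg _) zero_le_one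
        _ = b - a := one_mul _
    exact abs_le.1 this
  set Y : Env → ℝ := fun η => ∑ v ∈ D, (-ph μ a b (η v)) with hY
  have hYm : Measurable Y := Finset.measurable_sum _ fun v _ => (hph.comp (hev v)).neg
  have hYb : ∀ η, Y η ≤ D.card * (b - a) := by
    intro η
    have : ∀ v ∈ D, -ph μ a b (η v) ≤ b - a := fun v _ => (neg_le_abs _).trans (hpab _)
    have h := Finset.sum_le_card_nsmul D _ _ this
    rw [nsmul_eq_mul] at h
    exact h
  have h2 : ∑ v ∈ D, ∫ η, H η * (-ph μ a b (η v)) ∂(law μ) = ∫ η, H η * Y η ∂(law μ) := by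
    rw [← integral_finset_sum _ iv]
    refine integral_congr_ae (ae_of_all _ fun η => ?_)
    simp only [hY, Finset.mul_sum]
  -- Hoeffding
  set ε : ℝ := u * (b - a) * √(D.card : ℝ) with hε
  have hε0 : 0 ≤ ε := by positivity
  have hind : iIndepFun (fun (v : Pt) (η : Env) => -ph μ a b (η v)) (law μ) := by
    unfold law
    exact iIndepFun_infinitePi (P := fun _ : Pt => μ) (X := fun _ x => -ph μ a b x) fun _ => hph.neg
  have hsub : ∀ v ∈ D, HasSubgaussianMGF (fun η : Env => -ph μ a b (η v)) ((‖b - a‖₊ / 2) ^ 2) (law μ) := by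
    intro v _
    have hX : HasSubgaussianMGF (fun η : Env => (fun ξ : Env => cl a b (ξ v)) η -
        ∫ ξ : Env, cl a b (ξ v) ∂(law μ)) ((‖b - a‖₊ / 2) ^ 2) (law μ) :=
      hasSubgaussianMGF_of_mem_Icc ((cl_meas a b).comp (hev v)).aemeasurable
        (ae_of_all _ fun η => ⟨cl_ge a b _, cl_le hab.le _⟩)
    have hm : ∫ ξ : Env, cl a b (ξ v) ∂(law μ) = ∫ t, cl a b t ∂μ := by
      have h := integral_map (μ := law μ) (φ := fun ξ : Env => ξ v) (hev v).aemeasurable (f := cl a b)
        (cl_meas a b).aestronglyMeasurable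
      rw [(he v).map_eq] at h
      exact h.symm
    have := hX.neg
    refine this.congr (ae_of_all _ fun η => ?_)
    simp only [Pi.neg_apply, hm, ph]
  have hhoef : (law μ).real {η | ε ≤ Y η} ≤ Real.exp (-2 * u ^ 2) := by
    refine (HasSubgaussianMGF.measure_sum_ge_le_of_iIndepFun hind hsub hε0).trans (le_of_eq ?_)
    congr 1
    have hc : (((‖b - a‖₊ / 2) ^ 2 : NNReal) : ℝ) = ((b - a) / 2) ^ 2 := by
      push_cast
      rw [Real.norm_eq_abs, abs_of_pos hba]
    rw [Finset.sum_const, nsmul_eq_mul, NNReal.coe_mul, hc, hε]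
    push_cast
    have hs : √(D.card : ℝ) ^ 2 = D.card := Real.sq_sqrt hcard.le
    rw [mul_pow, mul_pow, hs]
    field_simp
  -- the truncation
  have hpt : ∀ η, H η * Y η ≤ ε * H η + {η | ε ≤ Y η}.indicator (fun _ => (D.card : ℝ) * (b - a)) η := by
    intro η
    by_cases h : ε ≤ Y η
    · rw [Set.indicator_of_mem (show η ∈ {η | ε ≤ Y η} from h)]
      have h3 : H η * Y η ≤ 1 * (D.card * (b - a)) :=
        mul_le_mul (hH1 η) (hYb η) (hε0.trans h) zero_le_one
      have h4 : 0 ≤ ε * H η := mul_nonneg hε0 (hH0 η)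
      linarith
    · rw [Set.indicator_of_notMem (show η ∉ {η | ε ≤ Y η} from h)]
      have h3 : H η * Y η ≤ H η * ε := mul_le_mul_of_nonneg_left (not_le.1 h).le (hH0 η)
      linarith
  have hmS : MeasurableSet {η | ε ≤ Y η} := measurableSet_le measurable_const hYm
  have hHi : Integrable H (law μ) :=
    Integrable.of_mem_Icc 0 1 hH.aemeasurable (ae_of_all _ fun η => ⟨hH0 η, hH1 η⟩)
  have iHY : Integrable (fun η => H η * Y η) (law μ) := by
    have := integrable_finset_sum D iv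
    refine this.congr (ae_of_all _ fun η => ?_)
    simp only [hY, Finset.mul_sum]
  have h5 : ∫ η, H η * Y η ∂(law μ) ≤ ε * ∫ η, H η ∂(law μ) + D.card * (b - a) * Real.exp (-2 * u ^ 2) := by
    have hi2 : Integrable ({η | ε ≤ Y η}.indicator (fun _ => (D.card : ℝ) * (b - a))) (law μ) :=
      (integrable_const _).indicator hmS
    have h6 := integral_mono iHY ((hHi.const_mul ε).add hi2) hpt
    have h7 : ∫ η, ((fun η => ε * H η) + {η | ε ≤ Y η}.indicator (fun _ => (D.card : ℝ) * (b - a))) η ∂(law μ) =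
        ε * ∫ η, H η ∂(law μ) + (law μ).real {η | ε ≤ Y η} * (D.card * (b - a)) := by
      rw [integral_add' (hHi.const_mul ε) hi2, integral_const_mul, integral_indicator_const _ hmS, smul_eq_mul]
    rw [h7] at h6
    refine h6.trans ?_
    have h8 : (law μ).real {η | ε ≤ Y η} * (D.card * (b - a)) ≤ Real.exp (-2 * u ^ 2) * (D.card * (b - a)) :=
      mul_le_mul_of_nonneg_right hhoef (by positivity)
    linarith
  calc kap μ a b * ∫ η, ∑ v ∈ D, G v η ∂(law μ) ≤ 2 * ∫ η, H η * Y η ∂(law μ) := by rw [← h2]; exact h1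
    _ ≤ 2 * (ε * ∫ η, H η ∂(law μ) + D.card * (b - a) * Real.exp (-2 * u ^ 2)) := by linarith
    _ = 2 * (b - a) * (u * √(D.card : ℝ) * ∫ η, H η ∂(law μ) + D.card * Real.exp (-2 * u ^ 2)) := by
        rw [hε]
        ring

/-- The ramp. -/
def rmp (M x : ℝ) : ℝ := max 0 (min 1 ((2 * M - x) / (4 * M)))

lemma rmp_nonneg (M x : ℝ) : 0 ≤ rmp M x := le_max_left _ _

lemma rmp_le (M x : ℝ) : rmp M x ≤ 1 := max_le zero_le_one (min_le_left _ _)

lemma rmp_anti {M : ℝ} (hM : 0 < M) : Antitone (rmp M) := by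
  intro x y h
  unfold rmp
  refine max_le_max le_rfl (min_le_min le_rfl ?_)
  gcongr

lemma rmp_meas (M : ℝ) : Measurable (rmp M) := by
  unfold rmp
  fun_prop

lemma rmp_eq {M x : ℝ} (hM : 1 ≤ M) (h1 : -(2 * M) ≤ x) (h2 : x ≤ 2 * M) : rmp M x = (2 * M - x) / (4 * M) := by
  have h0 : 0 < 4 * M := by linarith
  unfold rmp
  rw [min_eq_right ((div_le_one h0).2 (by linarith)), max_eq_right (div_nonneg (by linarith) h0.le)]

lemma rmp_up {M x δ d : ℝ} (hM : 1 ≤ M) (h1 : -M ≤ x) (h2 : x ≤ M) (h0 : 0 ≤ d) (hd : d ≤ 1) (h : d ≤ δ) :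
    d / (4 * M) ≤ rmp M x - rmp M (x + δ) := by
  have h3 : rmp M (x + δ) ≤ rmp M (x + d) := rmp_anti (by linarith) (by linarith)
  have h4 := rmp_eq (x := x) hM (by linarith) (by linarith)
  have h5 := rmp_eq (x := x + d) hM (by linarith) (by linarith)
  have h6 : (2 * M - x) / (4 * M) - (2 * M - (x + d)) / (4 * M) = d / (4 * M) := by ring
  linarith

lemma rmp_down {M x δ d : ℝ} (hM : 1 ≤ M) (h1 : -M ≤ x) (h2 : x ≤ M) (h0 : 0 ≤ d) (hd : d ≤ 1) (h : d ≤ δ) :
    d / (4 * M) ≤ rmp M (x - δ) - rmp M x := by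
  have h3 : rmp M (x - d) ≤ rmp M (x - δ) := rmp_anti (by linarith) (by linarith)
  have h4 := rmp_eq (x := x) hM (by linarith) (by linarith)
  have h5 := rmp_eq (x := x - d) hM (by linarith) (by linarith)
  have h6 : (2 * M - (x - d)) / (4 * M) - (2 * M - x) / (4 * M) = d / (4 * M) := by ring
  linarith

lemma fac_pos {x E : ℝ} (hx : 0 ≤ x) (hx1 : x ≤ 1) (hE : 0 < E) : 0 < 1 + x * (E - 1) := by
  rcases hx.eq_or_lt with h | h
  · rw [← h]
    simp
  · have := mul_pos h hE
    nlinarith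

/-- The logarithm of the growth. -/
lemma log_up {x g : ℝ} (hx : 0 ≤ x) (hx1 : x ≤ 1) (hg : 0 ≤ g) :
    x * min g 1 / 2 ≤ Real.log (1 + x * (Real.exp g - 1)) := by
  have h1 : min g 1 ≤ Real.exp g - 1 := by
    have := Real.add_one_le_exp g
    exact (min_le_left _ _).trans (by linarith)
  have h2 : 0 ≤ min g 1 := le_min hg zero_le_one
  set y := x * min g 1 with hy
  have hy0 : 0 ≤ y := mul_nonneg hx h2
  have hy1 : y ≤ 1 := by
    calc y ≤ 1 * 1 := mul_le_mul hx1 (min_le_right _ _) h2 zero_le_one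
      _ = 1 := one_mul _
  have h3 : y / 2 ≤ Real.log (1 + y) := by
    have h4 := Real.one_sub_inv_le_log_of_pos (show 0 < 1 + y by linarith)
    have h5 : y / 2 ≤ 1 - (1 + y)⁻¹ := by
      have : 1 - (1 + y)⁻¹ = y / (1 + y) := by
        field_simp
        ring
      rw [this]
      exact div_le_div_of_nonneg_left hy0 (by linarith) (by linarith)
    linarith
  refine h3.trans (Real.log_le_log (by linarith) ?_)
  have := mul_le_mul_of_nonneg_left h1 hx
  linarith

lemma log_down {x g : ℝ} (hx : 0 ≤ x) (hx1 : x ≤ 1) (hg : 0 ≤ g) :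
    x * min g 1 / 2 ≤ -Real.log (1 + x * (Real.exp (-g) - 1)) := by
  have hpos : 0 < 1 + x * (Real.exp (-g) - 1) := fac_pos hx hx1 (Real.exp_pos _)
  have h1 := Real.log_le_sub_one_of_pos hpos
  have h2 : min g 1 / 2 ≤ 1 - Real.exp (-g) := by
    have h3 : Real.exp (-g) ≤ Real.exp (-(min g 1)) := Real.exp_le_exp.2 (neg_le_neg (min_le_left _ _))
    have h4 : 0 ≤ min g 1 := le_min hg zero_le_one
    have h5 : min g 1 ≤ 1 := min_le_right _ _
    have h6 : Real.exp (-(min g 1)) ≤ 1 - min g 1 / 2 := by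
      rw [Real.exp_neg]
      have h7 := Real.add_one_le_exp (min g 1)
      have h8 : 0 < min g 1 + 1 := by linarith
      calc (Real.exp (min g 1))⁻¹ ≤ (min g 1 + 1)⁻¹ := inv_anti₀ h8 h7
        _ ≤ 1 - min g 1 / 2 := by
            rw [inv_le_iff_one_le_mul₀ h8]
            nlinarith
    linarith
  have := mul_le_mul_of_nonneg_left h2 hx
  linarith

/-- The data of a system of near ties: `s` = the paths, `a` = the event (and the condition that the path avoids `D`), `w` = the weights,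
`Z` = the partition function, `c`, `T` = the numerator of the ratio `r`. -/
structure Tie {ι κ : Type*} (D : Finset Pt) (l : ℝ) (s : Finset ι) (a w : ι → Env → ℝ) (Z : Env → ℝ)
    (Γ : ι → Finset κ) (c : ι → κ → Env → ℝ) (T : ι → κ → Finset Pt) : Prop where
  a0 : ∀ i ∈ s, ∀ η, 0 ≤ a i η
  a1 : ∀ i ∈ s, ∀ η, a i η ≤ 1
  w0 : ∀ i ∈ s, ∀ η, 0 ≤ w i η
  c0 : ∀ i ∈ s, ∀ g ∈ Γ i, ∀ η, 0 ≤ c i g η
  am : ∀ i ∈ s, Measurable (a i)
  wm : ∀ i ∈ s, Measurable (w i)
  Zm : Measurable Z
  cm : ∀ i ∈ s, ∀ g ∈ Γ i, Measurable (c i g)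
  Z0 : ∀ η, 0 < Z η
  Zs : ∀ η, ∑ i ∈ s, w i η ≤ Z η
  Zu : ∀ v ∈ D, ∀ η t, η v ≤ t → Z η ≤ Z (Function.update η v t)
  ai : ∀ i ∈ s, ∀ v ∈ D, ∀ η t, a i (Function.update η v t) = a i η
  wi : ∀ i ∈ s, ∀ v ∈ D, ∀ η t, w i (Function.update η v t) = w i η
  ci : ∀ i ∈ s, ∀ g ∈ Γ i, ∀ v ∈ D, ∀ η t, c i g (Function.update η v t) = c i g η
  Ts : ∀ i ∈ s, ∀ g ∈ Γ i, T i g ⊆ D
  Tl : ∀ i ∈ s, ∀ g ∈ Γ i, l ≤ ((T i g).card : ℝ)

section

variable {ι κ : Type*} {D : Finset Pt} {l : ℝ} {s : Finset ι} {a w : ι → Env → ℝ} {Z : Env → ℝ}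
  {Γ : ι → Finset κ} {c : ι → κ → Env → ℝ} {T : ι → κ → Finset Pt}

/-- The ratio. -/
def rr (Γ : ι → Finset κ) (c : ι → κ → Env → ℝ) (T : ι → κ → Finset Pt) (i : ι) (η : Env) : ℝ :=
  ∑ g ∈ Γ i, c i g η * Real.exp (∑ v ∈ T i g, η v)

/-- The part of the ratio which passes through `v`. -/
def rv (Γ : ι → Finset κ) (c : ι → κ → Env → ℝ) (T : ι → κ → Finset Pt) (i : ι) (v : Pt) (η : Env) : ℝ :=
  ∑ g ∈ (Γ i).filter (fun g => v ∈ T i g), c i g η * Real.exp (∑ x ∈ T i g, η x)

/-- The near ties of depth `M`. -/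
def near (Γ : ι → Finset κ) (c : ι → κ → Env → ℝ) (T : ι → κ → Finset Pt) (M : ℝ) (i : ι) : Set Env :=
  {η | Real.exp (-M) ≤ rr Γ c T i η ∧ rr Γ c T i η ≤ Real.exp M}

lemma rr_upd (h : Tie D l s a w Z Γ c T) {i : ι} (hi : i ∈ s) {v : Pt} (hv : v ∈ D) (η : Env) (t : ℝ) :
    rr Γ c T i (Function.update η v t) = rr Γ c T i η + rv Γ c T i v η * (Real.exp (t - η v) - 1) := by
  classical
  unfold rr rv
  rw [Finset.sum_mul, Finset.sum_filter, ← Finset.sum_add_distrib]
  refine Finset.sum_congr rfl fun g hg => ?_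
  rw [h.ci i hi g hg v hv]
  by_cases hvT : v ∈ T i g
  · rw [if_pos hvT, Finset.sum_update_of_mem hvT]
    have : ∑ x ∈ T i g, η x = η v + ∑ x ∈ T i g \ {v}, η x := by
      rw [← Finset.sum_sdiff (Finset.singleton_subset_iff.2 hvT)]
      simp [add_comm]
    rw [this]
    have e1 : Real.exp (t + ∑ x ∈ T i g \ {v}, η x) =
        Real.exp (η v + ∑ x ∈ T i g \ {v}, η x) * Real.exp (t - η v) := by
      rw [← Real.exp_add]
      congr 1
      ring
    rw [e1]
    ring
  · rw [if_neg hvT, Finset.sum_update_of_notMem hvT, add_zero]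

lemma rr_nonneg (h : Tie D l s a w Z Γ c T) {i : ι} (hi : i ∈ s) (η : Env) : 0 ≤ rr Γ c T i η :=
  Finset.sum_nonneg fun g hg => mul_nonneg (h.c0 i hi g hg η) (Real.exp_pos _).le

lemma rv_nonneg (h : Tie D l s a w Z Γ c T) {i : ι} (hi : i ∈ s) (v : Pt) (η : Env) : 0 ≤ rv Γ c T i v η :=
  Finset.sum_nonneg fun g hg => mul_nonneg (h.c0 i hi g (Finset.mem_of_mem_filter _ hg) η) (Real.exp_pos _).le

lemma rv_le (h : Tie D l s a w Z Γ c T) {i : ι} (hi : i ∈ s) (v : Pt) (η : Env) : rv Γ c T i v η ≤ rr Γ c T i η :=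
  Finset.sum_le_sum_of_subset_of_nonneg (Finset.filter_subset _ _)
    fun g hg _ => mul_nonneg (h.c0 i hi g hg η) (Real.exp_pos _).le

lemma rv_sum (h : Tie D l s a w Z Γ c T) {i : ι} (hi : i ∈ s) (η : Env) :
    l * rr Γ c T i η ≤ ∑ v ∈ D, rv Γ c T i v η := by
  classical
  unfold rv rr
  simp_rw [Finset.sum_filter]
  rw [Finset.sum_comm, Finset.mul_sum]
  refine Finset.sum_le_sum fun g hg => ?_
  have h1 : ∑ v ∈ D, (if v ∈ T i g then c i g η * Real.exp (∑ x ∈ T i g, η x) else 0) =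
      ((T i g).card : ℝ) * (c i g η * Real.exp (∑ x ∈ T i g, η x)) := by
    rw [← Finset.sum_filter, Finset.sum_const, nsmul_eq_mul]
    congr 2
    rw [Finset.filter_mem_eq_inter, Finset.inter_eq_right.2 (h.Ts i hi g hg)]
  rw [h1]
  exact mul_le_mul_of_nonneg_right (h.Tl i hi g hg) (mul_nonneg (h.c0 i hi g hg η) (Real.exp_pos _).le)

lemma rr_meas (h : Tie D l s a w Z Γ c T) {i : ι} (hi : i ∈ s) : Measurable (rr Γ c T i) := by
  unfold rr
  exact Finset.measurable_sum _ fun g hg => (h.cm i hi g hg).mul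
    (Finset.measurable_sum _ fun v _ => measurable_pi_apply v).exp

lemma rv_meas (h : Tie D l s a w Z Γ c T) {i : ι} (hi : i ∈ s) (v : Pt) : Measurable (rv Γ c T i v) := by
  unfold rv
  exact Finset.measurable_sum _ fun g hg => (h.cm i hi g (Finset.mem_of_mem_filter _ hg)).mul
    (Finset.measurable_sum _ fun v _ => measurable_pi_apply v).exp

/-- The ramp of the ratio reacts to the coordinate `v`, in both directions. -/
lemma rmp_react (h : Tie D l s a w Z Γ c T) {i : ι} (hi : i ∈ s) {v : Pt} (hv : v ∈ D) {M : ℝ} (hM : 1 ≤ M)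
    (η : Env) (t : ℝ) :
    (η v ≤ t → rmp M (Real.log (rr Γ c T i (Function.update η v t))) ≤ rmp M (Real.log (rr Γ c T i η)) ∧
      (near Γ c T M i).indicator (fun _ => (1 : ℝ)) η * (rv Γ c T i v η / rr Γ c T i η) * min |η v - t| 1 / (8 * M) ≤
        rmp M (Real.log (rr Γ c T i η)) - rmp M (Real.log (rr Γ c T i (Function.update η v t)))) ∧
    (t ≤ η v → rmp M (Real.log (rr Γ c T i η)) ≤ rmp M (Real.log (rr Γ c T i (Function.update η v t))) ∧
      (near Γ c T M i).indicator (fun _ => (1 : ℝ)) η * (rv Γ c T i v η / rr Γ c T i η) * min |η v - t| 1 / (8 * M) ≤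
        rmp M (Real.log (rr Γ c T i (Function.update η v t))) - rmp M (Real.log (rr Γ c T i η))) := by
  have hM0 : 0 < M := by linarith
  have hr0 := rr_nonneg h hi η
  have hv0 := rv_nonneg h hi v η
  have hvl := rv_le h hi v η
  have hup := rr_upd h hi hv η t
  rcases hr0.eq_or_lt with hz | hpos
  · -- no numerator at all
    have hv1 : rv Γ c T i v η = 0 := le_antisymm (by rw [hz]; exact hvl) hv0
    have e1 : rr Γ c T i (Function.update η v t) = rr Γ c T i η := by rw [hup, hv1]; ring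
    rw [e1, hv1]
    constructor
    · intro _
      exact ⟨le_rfl, by simp⟩
    · intro _
      exact ⟨le_rfl, by simp⟩
  set x : ℝ := rv Γ c T i v η / rr Γ c T i η with hx
  have hx0 : 0 ≤ x := div_nonneg hv0 hr0
  have hx1 : x ≤ 1 := (div_le_one hpos).2 hvl
  have hup' : rr Γ c T i (Function.update η v t) = rr Γ c T i η * (1 + x * (Real.exp (t - η v) - 1)) := by
    rw [hup, hx]
    field_simp
  have hfac : 0 < 1 + x * (Real.exp (t - η v) - 1) := fac_pos hx0 hx1 (Real.exp_pos _)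
  have hlog : Real.log (rr Γ c T i (Function.update η v t)) =
      Real.log (rr Γ c T i η) + Real.log (1 + x * (Real.exp (t - η v) - 1)) := by
    rw [hup', Real.log_mul hpos.ne' hfac.ne']
  have hmin0 : 0 ≤ min |η v - t| 1 := le_min (abs_nonneg _) zero_le_one
  have hd0 : 0 ≤ x * min |η v - t| 1 / 2 := by positivity
  have hd1 : x * min |η v - t| 1 / 2 ≤ 1 := by
    have : x * min |η v - t| 1 ≤ 1 * 1 := mul_le_mul hx1 (min_le_right _ _) hmin0 zero_le_one
    linarith
  have hnr : η ∈ near Γ c T M i → -M ≤ Real.log (rr Γ c T i η) ∧ Real.log (rr Γ c T i η) ≤ M := by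
    intro hn
    exact ⟨(Real.le_log_iff_exp_le hpos).2 hn.1, (Real.log_le_iff_le_exp hpos).2 hn.2⟩
  have h8 : x * min |η v - t| 1 / (8 * M) = x * min |η v - t| 1 / 2 / (4 * M) := by
    field_simp
    ring
  constructor
  · intro hle
    have habs : |η v - t| = t - η v := by
      rw [abs_sub_comm, abs_of_nonneg (by linarith)]
    have hlu := log_up (x := x) (g := t - η v) hx0 hx1 (by linarith)
    rw [← habs] at hlu
    have hl0 : 0 ≤ Real.log (1 + x * (Real.exp (t - η v) - 1)) := by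
      have : x * min |η v - t| 1 / 2 ≤ Real.log (1 + x * (Real.exp (t - η v) - 1)) := by
        rw [habs] at hlu ⊢
        exact hlu
      linarith
    refine ⟨rmp_anti hM0 (by rw [hlog]; linarith), ?_⟩
    by_cases hn : η ∈ near Γ c T M i
    · rw [Set.indicator_of_mem hn, one_mul, h8, hlog]
      refine rmp_up hM (hnr hn).1 (hnr hn).2 hd0 hd1 ?_
      rw [habs] at hlu ⊢
      exact hlu
    · rw [Set.indicator_of_notMem hn]
      have := rmp_anti hM0 (show Real.log (rr Γ c T i η) ≤ Real.log (rr Γ c T i (Function.update η v t)) by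
        rw [hlog]; linarith)
      simp only [zero_mul, zero_div]
      linarith
  · intro hle
    have habs : |η v - t| = η v - t := abs_of_nonneg (by linarith)
    have hld := log_down (x := x) (g := η v - t) hx0 hx1 (by linarith)
    have hneg : -(η v - t) = t - η v := by ring
    rw [hneg] at hld
    have hl0 : Real.log (1 + x * (Real.exp (t - η v) - 1)) ≤ 0 := by
      have h0 : 0 ≤ x * min (η v - t) 1 / 2 := by rw [← habs]; exact hd0
      linarith
    refine ⟨rmp_anti hM0 (by rw [hlog]; linarith), ?_⟩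
    by_cases hn : η ∈ near Γ c T M i
    · rw [Set.indicator_of_mem hn, one_mul, h8, hlog]
      have e : Real.log (rr Γ c T i η) + Real.log (1 + x * (Real.exp (t - η v) - 1)) =
          Real.log (rr Γ c T i η) - (-Real.log (1 + x * (Real.exp (t - η v) - 1))) := by ring
      rw [e]
      refine rmp_down hM (hnr hn).1 (hnr hn).2 hd0 hd1 ?_
      rw [habs]
      exact hld
    · rw [Set.indicator_of_notMem hn]
      have := rmp_anti hM0 (show Real.log (rr Γ c T i (Function.update η v t)) ≤ Real.log (rr Γ c T i η) by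
        rw [hlog]; linarith)
      simp only [zero_mul, zero_div]
      linarith

/-- **(DL), near ties are decoupled from everything.** With `p i = w i / Z`: the mean mass of the paths in the event
`a` which avoid `D` and are nearly tied (depth `M`) with paths making `l` steps in `D` is at most
`C (M / l) (u √|D| (mean mass of the event) + |D| exp (-2 u²))`. -/
theorem dl17 (h : Tie D l s a w Z Γ c T) {x y : ℝ} (hxy : x < y) {M u : ℝ} (hM : 1 ≤ M) (hu : 0 ≤ u) (hl : 0 ≤ l) :
    kap μ x y * (l / (8 * M)) *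
        ∫ η, ∑ i ∈ s, a i η * (w i η / Z η) * (near Γ c T M i).indicator (fun _ => (1 : ℝ)) η ∂(law μ) ≤
      2 * (y - x) * (u * √(D.card : ℝ) * ∫ η, ∑ i ∈ s, a i η * (w i η / Z η) ∂(law μ) +
        D.card * Real.exp (-2 * u ^ 2)) := by
  classical
  have hM0 : 0 < M := by linarith
  have hyx : 0 < y - x := by linarith
  set ind : ι → Env → ℝ := fun i => (near Γ c T M i).indicator (fun _ => (1 : ℝ)) with hind
  have hind0 : ∀ i η, 0 ≤ ind i η := fun i η => Set.indicator_nonneg (fun _ _ => zero_le_one) _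
  have hind1 : ∀ i η, ind i η ≤ 1 := fun i η => Set.indicator_le_self' (fun _ _ => zero_le_one) η
  have hnm : ∀ i ∈ s, MeasurableSet (near Γ c T M i) := fun i hi =>
    (measurableSet_le measurable_const (rr_meas h hi)).inter (measurableSet_le (rr_meas h hi) measurable_const)
  have hindm : ∀ i ∈ s, Measurable (ind i) := fun i hi => measurable_const.indicator (hnm i hi)
  set H : Env → ℝ := fun η => ∑ i ∈ s, a i η * (w i η / Z η) * rmp M (Real.log (rr Γ c T i η)) with hH
  set G : Pt → Env → ℝ := fun v η =>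
    ∑ i ∈ s, a i η * (w i η / Z η) * (ind i η * (rv Γ c T i v η / rr Γ c T i η) / (8 * M)) with hG
  have hp0 : ∀ i ∈ s, ∀ η, 0 ≤ w i η / Z η := fun i hi η => div_nonneg (h.w0 i hi η) (h.Z0 η).le
  have hap0 : ∀ i ∈ s, ∀ η, 0 ≤ a i η * (w i η / Z η) := fun i hi η => mul_nonneg (h.a0 i hi η) (hp0 i hi η)
  have hap1 : ∀ η, ∑ i ∈ s, a i η * (w i η / Z η) ≤ 1 := by
    intro η
    calc ∑ i ∈ s, a i η * (w i η / Z η) ≤ ∑ i ∈ s, w i η / Z η :=
          Finset.sum_le_sum fun i hi => by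
            have := mul_le_mul_of_nonneg_right (h.a1 i hi η) (hp0 i hi η)
            linarith
      _ = (∑ i ∈ s, w i η) / Z η := by rw [Finset.sum_div]
      _ ≤ 1 := (div_le_one (h.Z0 η)).2 (h.Zs η)
  have hapm : ∀ i ∈ s, Measurable fun η => a i η * (w i η / Z η) := fun i hi =>
    (h.am i hi).mul ((h.wm i hi).div h.Zm)
  have hHm : Measurable H := Finset.measurable_sum _ fun i hi =>
    (hapm i hi).mul ((rmp_meas M).comp (rr_meas h hi).log)
  have hGm : ∀ v ∈ D, Measurable (G v) := fun v _ => Finset.measurable_sum _ fun i hi =>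
    (hapm i hi).mul ((((hindm i hi).mul ((rv_meas h hi v).div (rr_meas h hi)))).div_const _)
  have hH0 : ∀ η, 0 ≤ H η := fun η => Finset.sum_nonneg fun i hi => mul_nonneg (hap0 i hi η) (rmp_nonneg _ _)
  have hHle : ∀ η, H η ≤ ∑ i ∈ s, a i η * (w i η / Z η) := fun η =>
    Finset.sum_le_sum fun i hi => mul_le_of_le_one_right (hap0 i hi η) (rmp_le _ _)
  have hH1 : ∀ η, H η ≤ 1 := fun η => (hHle η).trans (hap1 η)
  have hx0 : ∀ i ∈ s, ∀ v η, 0 ≤ rv Γ c T i v η / rr Γ c T i η := fun i hi v η =>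
    div_nonneg (rv_nonneg h hi v η) (rr_nonneg h hi η)
  have hx1 : ∀ i ∈ s, ∀ v η, rv Γ c T i v η / rr Γ c T i η ≤ 1 := fun i hi v η =>
    div_le_one_of_le₀ (rv_le h hi v η) (rr_nonneg h hi η)
  have hg0 : ∀ i ∈ s, ∀ v η, 0 ≤ ind i η * (rv Γ c T i v η / rr Γ c T i η) / (8 * M) := fun i hi v η =>
    div_nonneg (mul_nonneg (hind0 i η) (hx0 i hi v η)) (by linarith)
  have hG0 : ∀ v ∈ D, ∀ η, 0 ≤ G v η := fun v _ η => Finset.sum_nonneg fun i hi =>
    mul_nonneg (hap0 i hi η) (hg0 i hi v η)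
  have hG1 : ∀ v ∈ D, ∀ η, G v η ≤ 1 := by
    intro v _ η
    refine (Finset.sum_le_sum fun i hi => ?_).trans (hap1 η)
    refine mul_le_of_le_one_right (hap0 i hi η) ?_
    rw [div_le_one (by linarith)]
    calc ind i η * (rv Γ c T i v η / rr Γ c T i η) ≤ 1 * 1 :=
          mul_le_mul (hind1 i η) (hx1 i hi v η) (hx0 i hi v η) zero_le_one
      _ ≤ 8 * M := by linarith
  have hGi : ∀ v ∈ D, Integrable (G v) (law μ) := fun v hv =>
    Integrable.of_mem_Icc 0 1 (hGm v hv).aemeasurable (ae_of_all _ fun η => ⟨hG0 v hv η, hG1 v hv η⟩)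
  -- the reaction of one term
  have hterm : ∀ v ∈ D, ∀ η t, η v ≤ t → ∀ i ∈ s,
      a i η * (w i η / Z η) * (ind i η * (rv Γ c T i v η / rr Γ c T i η) / (8 * M)) * min |η v - t| 1 ≤
      a i η * (w i η / Z η) * rmp M (Real.log (rr Γ c T i η)) -
        a i (Function.update η v t) * (w i (Function.update η v t) / Z (Function.update η v t)) *
          rmp M (Real.log (rr Γ c T i (Function.update η v t))) := by
    intro v hv η t hle i hi
    obtain ⟨r1, r2⟩ := (rmp_react h hi hv hM η t).1 hle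
    rw [h.ai i hi v hv, h.wi i hi v hv]
    have hZ := h.Zu v hv η t hle
    have hw : w i η / Z (Function.update η v t) ≤ w i η / Z η :=
      div_le_div_of_nonneg_left (h.w0 i hi η) (h.Z0 η) hZ
    have h1 : a i η * (w i η / Z (Function.update η v t)) * rmp M (Real.log (rr Γ c T i (Function.update η v t))) ≤
        a i η * (w i η / Z η) * rmp M (Real.log (rr Γ c T i (Function.update η v t))) :=
      mul_le_mul_of_nonneg_right (mul_le_mul_of_nonneg_left hw (h.a0 i hi η)) (rmp_nonneg _ _)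
    have h2 := mul_le_mul_of_nonneg_left r2 (hap0 i hi η)
    have h3 : a i η * (w i η / Z η) * (ind i η * (rv Γ c T i v η / rr Γ c T i η) / (8 * M)) * min |η v - t| 1 =
        a i η * (w i η / Z η) * (ind i η * (rv Γ c T i v η / rr Γ c T i η) * min |η v - t| 1 / (8 * M)) := by ring
    rw [h3]
    simp only [hind] at h2 ⊢
    linarith
  have hterm2 : ∀ v ∈ D, ∀ η t, t ≤ η v → ∀ i ∈ s,
      a i η * (w i η / Z η) * (ind i η * (rv Γ c T i v η / rr Γ c T i η) / (8 * M)) * min |η v - t| 1 ≤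
        a i (Function.update η v t) * (w i (Function.update η v t) / Z (Function.update η v t)) *
          rmp M (Real.log (rr Γ c T i (Function.update η v t))) -
        a i η * (w i η / Z η) * rmp M (Real.log (rr Γ c T i η)) := by
    intro v hv η t hle i hi
    obtain ⟨r1, r2⟩ := (rmp_react h hi hv hM η t).2 hle
    rw [h.ai i hi v hv, h.wi i hi v hv]
    have hZ : Z (Function.update η v t) ≤ Z η := by
      have := h.Zu v hv (Function.update η v t) (η v) (by simpa using hle)
      simpa using this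
    have hw : w i η / Z η ≤ w i η / Z (Function.update η v t) :=
      div_le_div_of_nonneg_left (h.w0 i hi η) (h.Z0 _) hZ
    have h1 : a i η * (w i η / Z η) * rmp M (Real.log (rr Γ c T i (Function.update η v t))) ≤
        a i η * (w i η / Z (Function.update η v t)) * rmp M (Real.log (rr Γ c T i (Function.update η v t))) :=
      mul_le_mul_of_nonneg_right (mul_le_mul_of_nonneg_left hw (h.a0 i hi η)) (rmp_nonneg _ _)
    have h2 := mul_le_mul_of_nonneg_left r2 (hap0 i hi η)
    have h3 : a i η * (w i η / Z η) * (ind i η * (rv Γ c T i v η / rr Γ c T i η) / (8 * M)) * min |η v - t| 1 =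
        a i η * (w i η / Z η) * (ind i η * (rv Γ c T i v η / rr Γ c T i η) * min |η v - t| 1 / (8 * M)) := by ring
    rw [h3]
    simp only [hind] at h2 ⊢
    linarith
  have hanti : ∀ v ∈ D, ∀ η t, η v ≤ t → H (Function.update η v t) ≤ H η := by
    intro v hv η t hle
    simp only [hH]
    refine Finset.sum_le_sum fun i hi => ?_
    have h1 := hterm v hv η t hle i hi
    have h2 : 0 ≤ a i η * (w i η / Z η) * (ind i η * (rv Γ c T i v η / rr Γ c T i η) / (8 * M)) * min |η v - t| 1 :=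
      mul_nonneg (mul_nonneg (hap0 i hi η) (hg0 i hi v η)) (le_min (abs_nonneg _) zero_le_one)
    linarith
  have hsens : ∀ v ∈ D, ∀ η t, G v η * min |η v - t| 1 ≤ |H η - H (Function.update η v t)| := by
    intro v hv η t
    rcases le_total (η v) t with hle | hle
    · refine le_trans ?_ (le_abs_self _)
      simp only [hG, hH]
      rw [Finset.sum_mul, ← Finset.sum_sub_distrib]
      exact Finset.sum_le_sum fun i hi => hterm v hv η t hle i hi
    · refine le_trans ?_ (neg_le_abs _)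
      simp only [hG, hH]
      rw [neg_sub, Finset.sum_mul, ← Finset.sum_sub_distrib]
      exact Finset.sum_le_sum fun i hi => hterm2 v hv η t hle i hi
  have hmain := many_sites (μ := μ) hxy D hHm hGm hH0 hH1 hG0 hGi hanti hsens hu
  -- the lower bound of the left side
  have hk0 : 0 ≤ kap μ x y := by
    unfold kap
    have : 0 < (y - x) / 2 := by linarith
    positivity
  have hGl : ∀ η, l / (8 * M) * ∑ i ∈ s, a i η * (w i η / Z η) * ind i η ≤ ∑ v ∈ D, G v η := by
    intro η
    simp only [hG]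
    rw [Finset.sum_comm, Finset.mul_sum]
    refine Finset.sum_le_sum fun i hi => ?_
    rw [← Finset.mul_sum]
    by_cases hn : η ∈ near Γ c T M i
    · have hpos : 0 < rr Γ c T i η := lt_of_lt_of_le (Real.exp_pos _) hn.1
      have e1 : ind i η = 1 := by
        simp only [hind]
        exact Set.indicator_of_mem hn _
      have h1 : l ≤ ∑ v ∈ D, rv Γ c T i v η / rr Γ c T i η := by
        rw [← Finset.sum_div, le_div_iff₀ hpos]
        exact rv_sum h hi η
      have h2 : ∑ v ∈ D, ind i η * (rv Γ c T i v η / rr Γ c T i η) / (8 * M) =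
          (∑ v ∈ D, rv Γ c T i v η / rr Γ c T i η) / (8 * M) := by
        rw [e1, Finset.sum_div]
        simp
      rw [h2, e1, mul_one]
      have h3 : l / (8 * M) ≤ (∑ v ∈ D, rv Γ c T i v η / rr Γ c T i η) / (8 * M) :=
        div_le_div_of_nonneg_right h1 (by linarith)
      have := mul_le_mul_of_nonneg_left h3 (hap0 i hi η)
      linarith
    · have e1 : ind i η = 0 := by
        simp only [hind]
        exact Set.indicator_of_notMem hn _
      rw [e1]
      simp
  have iInd : Integrable (fun η => ∑ i ∈ s, a i η * (w i η / Z η) * ind i η) (law μ) := by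
    refine Integrable.of_mem_Icc 0 1 (Finset.measurable_sum _ fun i hi => (hapm i hi).mul (hindm i hi)).aemeasurable
      (ae_of_all _ fun η => ⟨Finset.sum_nonneg fun i hi => mul_nonneg (hap0 i hi η) (hind0 i η), ?_⟩)
    exact (Finset.sum_le_sum fun i hi => mul_le_of_le_one_right (hap0 i hi η) (hind1 i η)).trans (hap1 η)
  have iap : Integrable (fun η => ∑ i ∈ s, a i η * (w i η / Z η)) (law μ) :=
    Integrable.of_mem_Icc 0 1 (Finset.measurable_sum _ fun i hi => hapm i hi).aemeasurable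
      (ae_of_all _ fun η => ⟨Finset.sum_nonneg fun i hi => hap0 i hi η, hap1 η⟩)
  have iH : Integrable H (law μ) :=
    Integrable.of_mem_Icc 0 1 hHm.aemeasurable (ae_of_all _ fun η => ⟨hH0 η, hH1 η⟩)
  have h1 : l / (8 * M) * ∫ η, ∑ i ∈ s, a i η * (w i η / Z η) * ind i η ∂(law μ) ≤
      ∫ η, ∑ v ∈ D, G v η ∂(law μ) := by
    rw [← integral_const_mul]
    exact integral_mono (iInd.const_mul _) (integrable_finset_sum _ hGi) hGl
  have h2 : ∫ η, H η ∂(law μ) ≤ ∫ η, ∑ i ∈ s, a i η * (w i η / Z η) ∂(law μ) := integral_mono iH iap hHle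
  calc kap μ x y * (l / (8 * M)) * ∫ η, ∑ i ∈ s, a i η * (w i η / Z η) * ind i η ∂(law μ)
      = kap μ x y * (l / (8 * M) * ∫ η, ∑ i ∈ s, a i η * (w i η / Z η) * ind i η ∂(law μ)) := by ring
    _ ≤ kap μ x y * ∫ η, ∑ v ∈ D, G v η ∂(law μ) := mul_le_mul_of_nonneg_left h1 hk0
    _ ≤ _ := hmain
    _ ≤ _ := by
        have h3 : u * √(D.card : ℝ) * ∫ η, H η ∂(law μ) ≤
            u * √(D.card : ℝ) * ∫ η, ∑ i ∈ s, a i η * (w i η / Z η) ∂(law μ) :=
          mul_le_mul_of_nonneg_left h2 (by positivity)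
        have h4 : 0 ≤ 2 * (y - x) := by linarith
        exact mul_le_mul_of_nonneg_left (by linarith) h4

end

end

end Pool.Agent.W_7d29a1_Z17
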