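import Pool.Agent.W_7d29a1_Z.Defs
import Pool.Agent.W_7d29a1_Z.KrB

/-!
STORM Z, leaf TIE: the swap sum. If the path `S` is left of the line at the rows `J`, the quenched mean of the ratio of the two kernels
(strip / left of the line) between two of its points is at most one. (helper17)
-/

namespace Pool.Agent.W_7d29a1_Z17

open Finset Pool.Agent.W_7d29a1_F Pool.Agent.W_7d29a1_X Pool.Agent.W_7d29a1_Z

noncomputable section

variable {μ : MeasureTheory.Measure ℝ} {s : ℝ}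

/-- Positions of the whole path and of the pieces. -/
theorem pos_eq_ps (S : Finset ℕ) (i : ℕ) : pos S i = ps 0 0 0 S i := by
  unfold pos ps
  rw [range_eq_Ico]
  simp

/-- The weight of the whole path is the weight of a piece. -/
theorem pth_eq_pw (η : Env) (N : ℕ) (S : Finset ℕ) : pth μ s η N S = pw μ s 0 η 0 0 N S := by
  unfold pth pw
  have h1 : ((S ∩ Ico 0 N).card : ℝ) = (pos S N : ℝ) := by
    unfold pos
    rw [range_eq_Ico]
    push_cast
    rfl
  rw [h1, Nat.sub_zero]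
  congr 1
  have h2 : Ioc 0 N = (range N).image (fun i => i + 1) := by
    ext i
    simp only [mem_Ioc, mem_image, mem_range]
    constructor
    · rintro ⟨h3, h4⟩
      exact ⟨i - 1, by omega, by omega⟩
    · rintro ⟨j, hj, rfl⟩
      omega
  rw [h2, prod_image fun i _ j _ h => Nat.succ_injective h]
  refine prod_congr rfl fun i _ => ?_
  rw [pos_eq_ps]
  push_cast
  rfl

/-- The kernel between two points of a path, as a kernel of pieces. -/
theorem kr_eq (R : Set Pt) (η : Env) {a b : ℕ} (hab : a ≤ b) (X : ℕ → ℤ) :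
    kr μ R η a b X = Kc μ 0 0 (Reg R 0 a (X a) b) η a (X a) b (X b) := by
  unfold kr
  rw [WR_eq_Kc]
  have h1 : a + (b - a) = b := by omega
  have h2 : X a + (X b - X a) = X b := by ring
  rw [h1, h2]

open scoped Classical in
/-- **One swap.** `C` is the class of the middle piece of `S`, `f` the ratio: if `f (u, v) * Kc C (u, v) ≤ Kf (u, v)` then the swap
does not increase the weight. -/
theorem swap_mid (η : Env) {N : ℕ} {y : ℤ} {a b : ℕ} (hab : a ≤ b) (hbN : b ≤ N) (C : ℤ → Finset ℕ → Prop) (f : ℤ → ℤ → ℝ)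
    (hC : ∀ u v, f u v * Kc μ s 0 (C u) η a u b v ≤ Kf μ s 0 η a u b v) :
    ∑ S ∈ (range N).powerset, (if pos S N = y ∧ C (pos S a) (S ∩ Ico a b) then pth μ s η N S * f (pos S a) (pos S b) else 0) ≤
      Kf μ s 0 η 0 0 N y := by
  -- the sum as a sum over pieces
  obtain ⟨F, hF⟩ : ∃ F : Finset ℕ → ℝ, F = fun S => if pos S N = y ∧ C (pos S a) (S ∩ Ico a b) then f (pos S a) (pos S b) else 0 := ⟨_, rfl⟩
  have e1 : ∑ S ∈ (range N).powerset, (if pos S N = y ∧ C (pos S a) (S ∩ Ico a b) then pth μ s η N S * f (pos S a) (pos S b) else 0) =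
      ∑ S ∈ (Ico 0 N).powerset, pw μ s 0 η 0 0 N S * F S := by
    rw [range_eq_Ico]
    refine sum_congr rfl fun S _ => ?_
    rw [hF, pth_eq_pw]
    simp only []
    split_ifs <;> simp
  rw [e1, sum_pw_cut 0 η 0 (Nat.zero_le a) (hab.trans hbN)]
  have e2 : Kf μ s 0 η 0 0 N y =
      ∑ S ∈ (Ico 0 a).powerset, pw μ s 0 η 0 0 a S * Kf μ s 0 η a (ps 0 0 0 S a) N y := Kf_cut 0 η 0 y (Nat.zero_le a) (hab.trans hbN)
  rw [e2]
  refine sum_le_sum fun S hS => mul_le_mul_of_nonneg_left ?_ (pw_nonneg _ _ _ _ _ _)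
  rw [mem_powerset] at hS
  obtain ⟨u, hu⟩ : ∃ u, u = ps 0 0 0 S a := ⟨_, rfl⟩
  rw [← hu]
  rw [sum_pw_cut 0 η u hab hbN, Kf_cut 0 η u y hab hbN]
  -- the inner sums
  have e3 : ∀ S' ∈ (Ico a b).powerset, pw μ s 0 η a u b S' * ∑ S'' ∈ (Ico b N).powerset, pw μ s 0 η b (ps 0 a u S' b) N S'' * F (S ∪ (S' ∪ S'')) =
      (if C u S' then f u (ps 0 a u S' b) * pw μ s 0 η a u b S' else 0) * Kf μ s 0 η b (ps 0 a u S' b) N y := by
    intro S' hS'
    rw [mem_powerset] at hS'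
    have e4 : ∀ S'' ∈ (Ico b N).powerset, pw μ s 0 η b (ps 0 a u S' b) N S'' * F (S ∪ (S' ∪ S'')) =
        (if C u S' then f u (ps 0 a u S' b) else 0) *
          (if ps 0 b (ps 0 a u S' b) S'' N = y then pw μ s 0 η b (ps 0 a u S' b) N S'' else 0) := by
      intro S'' hS''
      rw [mem_powerset] at hS''
      have hSS : S' ∪ S'' ⊆ Ico a N :=
        union_subset (hS'.trans (Ico_subset_Ico_right hbN)) (hS''.trans (Ico_subset_Ico_left hab))
      have p1 : pos (S ∪ (S' ∪ S'')) a = u := by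
        rw [pos_eq_ps, ps_union_left 0 0 hS hSS le_rfl, hu]
      have p2 : pos (S ∪ (S' ∪ S'')) b = ps 0 a u S' b := by
        rw [pos_eq_ps, ps_union_right 0 0 hS hSS (Nat.zero_le a) hab hbN, ← hu, ps_union_left 0 u hS' hS'' le_rfl]
      have p3 : pos (S ∪ (S' ∪ S'')) N = ps 0 b (ps 0 a u S' b) S'' N := by
        rw [pos_eq_ps, ps_union_right 0 0 hS hSS (Nat.zero_le a) (hab.trans hbN) le_rfl, ← hu,
          ps_union_right 0 u hS' hS'' hab hbN le_rfl]
      have p4 : (S ∪ (S' ∪ S'')) ∩ Ico a b = S' := by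
        rw [← inter_eq_right.2 (Ico_subset_Ico_right hbN : Ico a b ⊆ Ico a N), ← inter_assoc,
          union_inter_right hS hSS, union_inter_left hS' hS'']
      rw [hF]
      simp only [p1, p2, p3, p4]
      by_cases h1 : ps 0 b (ps 0 a u S' b) S'' N = y
      · by_cases h2 : C u S'
        · rw [if_pos ⟨h1, h2⟩, if_pos h1, if_pos h2]
          ring
        · rw [if_neg (fun h => h2 h.2), if_neg h2]
          ring
      · rw [if_neg (fun h => h1 h.1), if_neg h1]
        ring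
    rw [sum_congr rfl e4, ← mul_sum]
    have e5 : ∑ S'' ∈ (Ico b N).powerset, (if ps 0 b (ps 0 a u S' b) S'' N = y then pw μ s 0 η b (ps 0 a u S' b) N S'' else 0) =
        Kf μ s 0 η b (ps 0 a u S' b) N y := by
      unfold Kf pcs
      rw [sum_filter]
    rw [e5]
    split_ifs <;> ring
  rw [sum_congr rfl e3]
  -- group by the position at the time `b`
  obtain ⟨V, hV⟩ : ∃ V : Finset ℤ, V = (Ico a b).powerset.image fun S' => ps 0 a u S' b := ⟨_, rfl⟩
  have hmap : ∀ S' ∈ (Ico a b).powerset, ps 0 a u S' b ∈ V := fun S' hS' => by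
    rw [hV]
    exact mem_image_of_mem _ hS'
  rw [← sum_fiberwise_of_maps_to hmap, ← sum_fiberwise_of_maps_to hmap]
  refine sum_le_sum fun v _ => ?_
  have e6 : ∑ S' ∈ (Ico a b).powerset with ps 0 a u S' b = v,
      (if C u S' then f u (ps 0 a u S' b) * pw μ s 0 η a u b S' else 0) * Kf μ s 0 η b (ps 0 a u S' b) N y =
      (f u v * Kc μ s 0 (C u) η a u b v) * Kf μ s 0 η b v N y := by
    unfold Kc pcs
    rw [sum_filter (C u), mul_sum, sum_mul]
    refine sum_congr rfl fun S' hS' => ?_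
    rw [(mem_filter.1 hS').2]
    split_ifs <;> ring
  have e7 : ∑ S' ∈ (Ico a b).powerset with ps 0 a u S' b = v, pw μ s 0 η a u b S' * Kf μ s 0 η b (ps 0 a u S' b) N y =
      Kf μ s 0 η a u b v * Kf μ s 0 η b v N y := by
    conv_rhs => rw [Kf, pcs]
    rw [sum_mul]
    refine sum_congr rfl fun S' hS' => ?_
    rw [(mem_filter.1 hS').2]
  rw [e6, e7]
  exact mul_le_mul_of_nonneg_right (hC u v) (Kf_nonneg _ _ _ _ _ _)

/-- The path is left of the line iff its middle piece is in the class. -/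
theorem inL_iff {sg Y : ℤ} {J : Finset ℕ} {a b : ℕ} (hJ : ∀ i ∈ J, a < i ∧ i < b) (S : Finset ℕ) :
    InL sg J Y S ↔ Reg (Lr sg J Y) 0 a (pos S a) b (S ∩ Ico a b) := by
  have hp : ∀ t, a ≤ t → t ≤ b → ps 0 a (pos S a) (S ∩ Ico a b) t = pos S t := by
    intro t h1 h2
    rw [ps_inter 0 a _ S h2, pos_eq_ps, pos_eq_ps, ps_chain 0 0 S (Nat.zero_le a) h1]
  constructor
  · intro h t ht
    rw [mem_Ioc] at ht
    rw [hp t ht.1.le ht.2]
    intro hJt
    have h1 : t ∈ J := by simpa using hJt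
    exact h t h1
  · intro h i hi
    have h1 := hJ i hi
    have h2 := h i (mem_Ioc.2 ⟨h1.1, h1.2.le⟩)
    rw [hp i h1.1.le h1.2.le] at h2
    exact h2 (by simpa using hi)

open scoped Classical in
/-- **THE SWAP SUM.** -/
theorem swap_sum (η : Env) {N : ℕ} {y : ℤ} {sg Y w : ℤ} {J : Finset ℕ} {a b : ℕ} (hab : a ≤ b) (hbN : b ≤ N)
    (hJ : ∀ i ∈ J, a < i ∧ i < b) :
    ∑ S ∈ (range N).powerset, (if InL sg J Y S then
      gp μ η N y S * (kr μ (Rr sg J Y w) η a b (pos S) / kr μ (Lr sg J Y) η a b (pos S)) else 0) ≤ 1 := by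
  obtain ⟨Z, hZ⟩ : ∃ Z, Z = W μ 0 η 0 N y := ⟨_, rfl⟩
  have hZ' : Z = Kf μ 0 0 η 0 0 N y := by
    rw [hZ]
    have h1 := W_eq_Kf (μ := μ) (s := 0) η 0 0 N y
    rw [zero_add, zero_add] at h1
    exact h1
  have hZ0 : 0 ≤ Z := by rw [hZ']; exact Kf_nonneg _ _ _ _ _ _
  have h1 := swap_mid (μ := μ) (s := 0) η (y := y) hab hbN (fun u S' => Reg (Lr sg J Y) 0 a u b S')
    (fun u v => Kc μ 0 0 (Reg (Rr sg J Y w) 0 a u b) η a u b v / Kc μ 0 0 (Reg (Lr sg J Y) 0 a u b) η a u b v) (fun u v => by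
      have h2 := Kc_nonneg (μ := μ) (s := 0) 0 (Reg (Lr sg J Y) 0 a u b) η a u b v
      have h3 := Kc_nonneg (μ := μ) (s := 0) 0 (Reg (Rr sg J Y w) 0 a u b) η a u b v
      have h4 := Kc_le_Kf (μ := μ) (s := 0) 0 (Reg (Rr sg J Y w) 0 a u b) η a u b v
      rcases h2.eq_or_lt with h5 | h5
      · rw [← h5, mul_zero]
        exact h3.trans h4
      · rw [div_mul_cancel₀ _ h5.ne']
        exact h4)
  rw [← hZ'] at h1
  have h6 : ∑ S ∈ (range N).powerset, (if InL sg J Y S then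
      gp μ η N y S * (kr μ (Rr sg J Y w) η a b (pos S) / kr μ (Lr sg J Y) η a b (pos S)) else 0) =
      (∑ S ∈ (range N).powerset, (if pos S N = y ∧ Reg (Lr sg J Y) 0 a (pos S a) b (S ∩ Ico a b) then
        pth μ 0 η N S * (Kc μ 0 0 (Reg (Rr sg J Y w) 0 a (pos S a) b) η a (pos S a) b (pos S b) /
          Kc μ 0 0 (Reg (Lr sg J Y) 0 a (pos S a) b) η a (pos S a) b (pos S b)) else 0)) / Z := by
    rw [sum_div]
    refine sum_congr rfl fun S _ => ?_
    rw [inL_iff hJ, kr_eq _ η hab, kr_eq _ η hab]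
    unfold gp
    rw [← hZ]
    by_cases h7 : pos S N = y
    · by_cases h8 : Reg (Lr sg J Y) 0 a (pos S a) b (S ∩ Ico a b)
      · rw [if_pos h8, if_pos h7, if_pos ⟨h7, h8⟩]
        ring
      · rw [if_neg h8, if_neg (fun h => h8 h.2), zero_div]
    · have h9 : ¬ (pos S N = y ∧ Reg (Lr sg J Y) 0 a (pos S a) b (S ∩ Ico a b)) := fun h => h7 h.1
      rw [if_neg h9, if_neg h7, zero_mul, zero_div, ite_self]
  rw [h6]
  exact (div_le_div_of_nonneg_right h1 hZ0).trans (div_self_le_one Z)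

end

end Pool.Agent.W_7d29a1_Z17
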