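import Pool.Agent.W_7d29a1_F.CoreB3
import Mathlib.Probability.Moments.SubGaussian

/-!
STORM Z (MP_7d29a1_pr), leaf Z3, part A: resampling of one coordinate against a bounded increasing function of it.
(helper17)
-/

namespace Pool.Agent.W_7d29a1_Z17

open MeasureTheory ProbabilityTheory Filter Topology
open Pool.Agent.W_7d29a1_F

noncomputable section

variable {μ : Measure ℝ} [IsProbabilityMeasure μ]

/-- The truncation at the levels `a`, `b`. -/
def cl (a b x : ℝ) : ℝ := max a (min b x)

/-- The centred truncation. -/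
def ph (μ : Measure ℝ) (a b x : ℝ) : ℝ := cl a b x - ∫ t, cl a b t ∂μ

lemma cl_meas (a b : ℝ) : Measurable (cl a b) := by
  unfold cl
  fun_prop

lemma cl_ge (a b x : ℝ) : a ≤ cl a b x := le_max_left _ _

lemma cl_le {a b : ℝ} (hab : a ≤ b) (x : ℝ) : cl a b x ≤ b := max_le hab (min_le_left _ _)

lemma cl_mono (a b : ℝ) : Monotone (cl a b) := by
  intro x y h
  unfold cl
  exact max_le_max le_rfl (min_le_min le_rfl h)

lemma cl_int {a b : ℝ} (hab : a ≤ b) : Integrable (cl a b) μ :=
  Integrable.of_mem_Icc a b (cl_meas a b).aemeasurable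
    (ae_of_all _ fun x => ⟨cl_ge a b x, cl_le hab x⟩)

lemma ph_meas (a b : ℝ) : Measurable (ph μ a b) := (cl_meas a b).sub_const _

lemma ph_int {a b : ℝ} (hab : a ≤ b) : Integrable (ph μ a b) μ := (cl_int hab).sub (integrable_const _)

lemma ph_zero {a b : ℝ} (hab : a ≤ b) : ∫ x, ph μ a b x ∂μ = 0 := by
  unfold ph
  rw [integral_sub (cl_int hab) (integrable_const _)]
  simp

lemma ph_abs {a b : ℝ} (hab : a ≤ b) (x : ℝ) : |ph μ a b x| ≤ b - a := by
  have h1 : a ≤ ∫ t, cl a b t ∂μ := by
    have := integral_mono (μ := μ) (integrable_const a) (cl_int hab) fun t => cl_ge a b t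
    simpa using this
  have h2 : ∫ t, cl a b t ∂μ ≤ b := by
    have := integral_mono (μ := μ) (cl_int hab) (integrable_const b) fun t => cl_le hab t
    simpa using this
  have h3 := cl_ge a b x
  have h4 := cl_le hab x
  unfold ph
  rw [abs_le]
  constructor <;> linarith

/-- Resampling one site. -/
theorem mp_upd (v : Pt) : MeasurePreserving (fun q : Env × ℝ => Function.update q.1 v q.2)
    ((law μ).prod μ) (law μ) := by
  classical
  have hm : Measurable fun q : Env × ℝ => Function.update q.1 v q.2 := by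
    refine measurable_pi_lambda _ fun p => ?_
    by_cases hp : p = v
    · subst hp
      simp only [Function.update_self]
      exact measurable_snd
    · simp only [Function.update_of_ne hp]
      exact (measurable_pi_apply p).comp measurable_fst
  have he : MeasurePreserving (fun ξ : Env => ξ v) (law μ) μ := by
    unfold law
    exact measurePreserving_eval_infinitePi _ _
  have h1 : MeasurePreserving (fun q : Env × Env => (q.1, q.2 v)) ((law μ).prod (law μ)) ((law μ).prod μ) :=
    (MeasurePreserving.id (law μ)).prod he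
  have h2 := mp_glue (μ := μ) ({v}ᶜ : Set Pt)
  refine ⟨hm, ?_⟩
  rw [← h1.map_eq, Measure.map_map hm h1.measurable]
  have hf : ((fun q : Env × ℝ => Function.update q.1 v q.2) ∘ fun q : Env × Env => (q.1, q.2 v)) =
      fun (q : Env × Env) p => if p ∈ ({v}ᶜ : Set Pt) then q.1 p else q.2 p := by
    funext q
    funext p
    by_cases hp : p = v
    · subst hp
      simp
    · simp [hp]
  rw [hf]
  exact h2.map_eq

/-- The exchange of the value at `v` and of the fresh value. -/
theorem mp_exch (v : Pt) : MeasurePreserving (fun q : Env × ℝ => (Function.update q.1 v q.2, q.1 v))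
    ((law μ).prod μ) ((law μ).prod μ) := by
  have hu := mp_upd (μ := μ) v
  have hτ : Measurable fun q : Env × ℝ => (Function.update q.1 v q.2, q.1 v) :=
    hu.measurable.prodMk ((measurable_pi_apply v).comp measurable_fst)
  -- the map `(ζ, t, s) ↦ (update ζ v t, s)`
  have hΨ : MeasurePreserving (fun q : (Env × ℝ) × ℝ => (Function.update q.1.1 v q.1.2, q.2))
      (((law μ).prod μ).prod μ) ((law μ).prod μ) := hu.prod (MeasurePreserving.id μ)
  have hsw : MeasurePreserving (fun q : (Env × ℝ) × ℝ => ((q.1.1, q.2), q.1.2))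
      (((law μ).prod μ).prod μ) (((law μ).prod μ).prod μ) := by
    have a1 : MeasurePreserving (fun q : (Env × ℝ) × ℝ => (q.1.1, (q.1.2, q.2)))
        (((law μ).prod μ).prod μ) ((law μ).prod (μ.prod μ)) :=
      measurePreserving_prodAssoc (law μ) μ μ
    have a2 : MeasurePreserving (fun q : Env × (ℝ × ℝ) => (q.1, (q.2.2, q.2.1)))
        ((law μ).prod (μ.prod μ)) ((law μ).prod (μ.prod μ)) :=
      (MeasurePreserving.id (law μ)).prod Measure.measurePreserving_swap
    have a3 : MeasurePreserving (fun q : Env × (ℝ × ℝ) => ((q.1, q.2.1), q.2.2))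
        ((law μ).prod (μ.prod μ)) (((law μ).prod μ).prod μ) :=
      (measurePreserving_prodAssoc (law μ) μ μ).symm MeasurableEquiv.prodAssoc
    exact a3.comp (a2.comp a1)
  refine ⟨hτ, ?_⟩
  conv_lhs => rw [← hΨ.map_eq]
  rw [Measure.map_map hτ hΨ.measurable]
  have hc : (fun q : Env × ℝ => (Function.update q.1 v q.2, q.1 v)) ∘
      (fun q : (Env × ℝ) × ℝ => (Function.update q.1.1 v q.1.2, q.2)) =
      (fun q : (Env × ℝ) × ℝ => (Function.update q.1.1 v q.1.2, q.2)) ∘
        (fun q : (Env × ℝ) × ℝ => ((q.1.1, q.2), q.1.2)) := by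
    funext q
    simp [Function.update_idem]
  rw [hc, ← Measure.map_map hΨ.measurable hsw.measurable, hsw.map_eq, hΨ.map_eq]

/-- The size of the jumps. -/
def kap (μ : Measure ℝ) (a b : ℝ) : ℝ :=
  min (μ.real (Set.Iic a)) (μ.real (Set.Ici b)) * (min ((b - a) / 2) 1 * ((b - a) / 2))

lemma kap_pos {a b : ℝ} (hab : a < b) (ha : 0 < μ.real (Set.Iic a)) (hb : 0 < μ.real (Set.Ici b)) :
    0 < kap μ a b := by
  unfold kap
  have : 0 < (b - a) / 2 := by linarith
  exact mul_pos (lt_min ha hb) (mul_pos (lt_min this one_pos) this)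

lemma kap_le {a b : ℝ} (hab : a < b) (x : ℝ) :
    kap μ a b ≤ ∫ t, min |x - t| 1 * |cl a b x - cl a b t| ∂μ := by
  have hd : 0 < (b - a) / 2 := by linarith
  have hmeas : Measurable fun t => min |x - t| 1 * |cl a b x - cl a b t| := by
    have := cl_meas a b
    fun_prop
  have hbd : ∀ t, min |x - t| 1 * |cl a b x - cl a b t| ≤ b - a := by
    intro t
    have h1 : |cl a b x - cl a b t| ≤ b - a := by
      rw [abs_le]
      constructor <;> linarith [cl_ge a b x, cl_ge a b t, cl_le hab.le x, cl_le hab.le t]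
    calc min |x - t| 1 * |cl a b x - cl a b t| ≤ 1 * (b - a) :=
          mul_le_mul (min_le_right _ _) h1 (abs_nonneg _) zero_le_one
      _ = b - a := one_mul _
  have hnn : ∀ t, 0 ≤ min |x - t| 1 * |cl a b x - cl a b t| := fun t =>
    mul_nonneg (le_min (abs_nonneg _) zero_le_one) (abs_nonneg _)
  have hint : Integrable (fun t => min |x - t| 1 * |cl a b x - cl a b t|) μ :=
    Integrable.of_mem_Icc 0 (b - a) hmeas.aemeasurable (ae_of_all _ fun t => ⟨hnn t, hbd t⟩)
  have key : ∀ s : Set ℝ, MeasurableSet s → (∀ t ∈ s, min ((b - a) / 2) 1 * ((b - a) / 2) ≤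
      min |x - t| 1 * |cl a b x - cl a b t|) →
      μ.real s * (min ((b - a) / 2) 1 * ((b - a) / 2)) ≤ ∫ t, min |x - t| 1 * |cl a b x - cl a b t| ∂μ := by
    intro s hs h
    have h1 : ∫ t, s.indicator (fun _ => min ((b - a) / 2) 1 * ((b - a) / 2)) t ∂μ ≤
        ∫ t, min |x - t| 1 * |cl a b x - cl a b t| ∂μ := by
      refine integral_mono ((integrable_const _).indicator hs) hint fun t => ?_
      by_cases ht : t ∈ s
      · simpa [ht] using h t ht
      · simpa [ht] using hnn t
    rwa [integral_indicator_const _ hs, smul_eq_mul] at h1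
  have hK : 0 ≤ min ((b - a) / 2) 1 * ((b - a) / 2) := by positivity
  rcases le_total x ((a + b) / 2) with hx | hx
  · refine le_trans ?_ (key (Set.Ici b) measurableSet_Ici fun t ht => ?_)
    · unfold kap
      exact mul_le_mul_of_nonneg_right (min_le_right _ _) hK
    · rw [Set.mem_Ici] at ht
      have h1 : (b - a) / 2 ≤ |x - t| := by
        rw [abs_sub_comm, le_abs]
        left
        linarith
      have h2 : (b - a) / 2 ≤ |cl a b x - cl a b t| := by
        have e1 : cl a b t = b := by
          unfold cl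
          rw [min_eq_left ht, max_eq_right hab.le]
        have e2 : cl a b x ≤ (a + b) / 2 := by
          unfold cl
          exact max_le (by linarith) (le_trans (min_le_right _ _) hx)
        rw [e1, abs_sub_comm, le_abs]
        left
        linarith
      exact mul_le_mul (min_le_min h1 le_rfl) h2 hd.le (le_min (abs_nonneg _) zero_le_one)
  · refine le_trans ?_ (key (Set.Iic a) measurableSet_Iic fun t ht => ?_)
    · unfold kap
      exact mul_le_mul_of_nonneg_right (min_le_left _ _) hK
    · rw [Set.mem_Iic] at ht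
      have h1 : (b - a) / 2 ≤ |x - t| := by
        rw [le_abs]
        left
        linarith
      have h2 : (b - a) / 2 ≤ |cl a b x - cl a b t| := by
        have e1 : cl a b t = a := by
          unfold cl
          rw [min_eq_right (le_trans ht hab.le), max_eq_left ht]
        have e2 : (a + b) / 2 ≤ cl a b x := by
          unfold cl
          exact le_trans (le_min (by linarith) hx) (le_max_right _ _)
        rw [e1, le_abs]
        left
        linarith
      exact mul_le_mul (min_le_min h1 le_rfl) h2 hd.le (le_min (abs_nonneg _) zero_le_one)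

/-- **One coordinate**: a bounded function `H` which is antitone in the coordinate `v`, with the sensitivity `G`,
is negatively correlated with `ph` at `v`. -/
theorem one_site {a b : ℝ} (hab : a < b) {v : Pt} {H G : Env → ℝ} (hH : Measurable H) (hG : Measurable G)
    (hH0 : ∀ η, 0 ≤ H η) (hH1 : ∀ η, H η ≤ 1) (hG0 : ∀ η, 0 ≤ G η)
    (hanti : ∀ η t, η v ≤ t → H (Function.update η v t) ≤ H η)
    (hsens : ∀ η t, G η * min |η v - t| 1 ≤ |H η - H (Function.update η v t)|) :
    Integrable G (law μ) → kap μ a b * ∫ η, G η ∂(law μ) ≤ -2 * ∫ η, H η * ph μ a b (η v) ∂(law μ) := by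
  intro hGi
  have hu := mp_upd (μ := μ) v
  have hx := mp_exch (μ := μ) v
  have hev : Measurable fun η : Env => η v := measurable_pi_apply v
  have hph := ph_meas (μ := μ) a b
  have hcl := cl_meas a b
  -- integrability helper
  have bdd : ∀ (f : Env × ℝ → ℝ) (_ : Measurable f) (B : ℝ) (_ : ∀ q, |f q| ≤ B), Integrable f ((law μ).prod μ) := by
    intro f hf B hB
    exact Integrable.of_mem_Icc (-B) B hf.aemeasurable (ae_of_all _ fun q => abs_le.1 (hB q))
  have hHab : ∀ η, |H η| ≤ 1 := fun η => abs_le.2 ⟨by linarith [hH0 η], hH1 η⟩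
  have hpab := ph_abs (μ := μ) hab.le
  have hba : 0 ≤ b - a := by linarith
  have mU : Measurable fun q : Env × ℝ => H q.1 := hH.comp measurable_fst
  have mU' : Measurable fun q : Env × ℝ => H (Function.update q.1 v q.2) := hH.comp hu.measurable
  have mA : Measurable fun q : Env × ℝ => ph μ a b (q.1 v) := hph.comp (hev.comp measurable_fst)
  have mB : Measurable fun q : Env × ℝ => ph μ a b q.2 := hph.comp measurable_snd
  have prodb : ∀ x y : ℝ, |x| ≤ 1 → |y| ≤ b - a → |x * y| ≤ b - a := by
    intro x y h1 h2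
    rw [abs_mul]
    calc |x| * |y| ≤ 1 * (b - a) := mul_le_mul h1 h2 (abs_nonneg _) zero_le_one
      _ = b - a := one_mul _
  have i1 : Integrable (fun q : Env × ℝ => H q.1 * ph μ a b (q.1 v)) ((law μ).prod μ) :=
    bdd _ (mU.mul mA) (b - a) fun q => prodb _ _ (hHab _) (hpab _)
  have i2 : Integrable (fun q : Env × ℝ => H q.1 * ph μ a b q.2) ((law μ).prod μ) :=
    bdd _ (mU.mul mB) (b - a) fun q => prodb _ _ (hHab _) (hpab _)
  have i3 : Integrable (fun q : Env × ℝ => H (Function.update q.1 v q.2) * ph μ a b (q.1 v)) ((law μ).prod μ) :=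
    bdd _ (mU'.mul mA) (b - a) fun q => prodb _ _ (hHab _) (hpab _)
  have i4 : Integrable (fun q : Env × ℝ => H (Function.update q.1 v q.2) * ph μ a b q.2) ((law μ).prod μ) :=
    bdd _ (mU'.mul mB) (b - a) fun q => prodb _ _ (hHab _) (hpab _)
  -- the four integrals
  have e1 : ∫ q : Env × ℝ, H q.1 * ph μ a b (q.1 v) ∂((law μ).prod μ) = ∫ η, H η * ph μ a b (η v) ∂(law μ) := by
    rw [integral_prod _ i1]
    simp
  have e2 : ∫ q : Env × ℝ, H q.1 * ph μ a b q.2 ∂((law μ).prod μ) = 0 := by
    rw [integral_prod _ i2]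
    simp only [integral_const_mul, ph_zero hab.le, mul_zero, integral_zero]
  have exch : ∀ f : Env × ℝ → ℝ, Measurable f →
      ∫ q : Env × ℝ, f (Function.update q.1 v q.2, q.1 v) ∂((law μ).prod μ) = ∫ q, f q ∂((law μ).prod μ) := by
    intro f hf
    have h := integral_map (μ := (law μ).prod μ) (φ := fun q : Env × ℝ => (Function.update q.1 v q.2, q.1 v))
      hx.measurable.aemeasurable (f := f) hf.aestronglyMeasurable
    rw [hx.map_eq] at h
    exact h.symm
  have e3 : ∫ q : Env × ℝ, H (Function.update q.1 v q.2) * ph μ a b (q.1 v) ∂((law μ).prod μ) = 0 := by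
    rw [← e2, ← exch (fun q => H q.1 * ph μ a b q.2) (mU.mul mB)]
  have e4 : ∫ q : Env × ℝ, H (Function.update q.1 v q.2) * ph μ a b q.2 ∂((law μ).prod μ) =
      ∫ η, H η * ph μ a b (η v) ∂(law μ) := by
    rw [← e1, ← exch (fun q => H q.1 * ph μ a b (q.1 v)) (mU.mul mA)]
    refine integral_congr_ae (ae_of_all _ fun q => ?_)
    simp
  have hmain : 2 * ∫ η, H η * ph μ a b (η v) ∂(law μ) =
      ∫ q : Env × ℝ, (H q.1 - H (Function.update q.1 v q.2)) * (ph μ a b (q.1 v) - ph μ a b q.2)
        ∂((law μ).prod μ) := by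
    have : ∀ q : Env × ℝ, (H q.1 - H (Function.update q.1 v q.2)) * (ph μ a b (q.1 v) - ph μ a b q.2) =
        (H q.1 * ph μ a b (q.1 v) - H q.1 * ph μ a b q.2) -
        (H (Function.update q.1 v q.2) * ph μ a b (q.1 v) - H (Function.update q.1 v q.2) * ph μ a b q.2) := by
      intro q
      ring
    have h1 := integral_sub (i1.sub i2) (i3.sub i4)
    simp only [Pi.sub_apply] at h1
    rw [integral_congr_ae (ae_of_all _ this), h1, integral_sub i1 i2, integral_sub i3 i4, e1, e2, e3, e4]
    ring
  -- the pointwise bound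
  have hpt : ∀ q : Env × ℝ, (H q.1 - H (Function.update q.1 v q.2)) * (ph μ a b (q.1 v) - ph μ a b q.2) ≤
      -(G q.1 * (min |q.1 v - q.2| 1 * |cl a b (q.1 v) - cl a b q.2|)) := by
    intro q
    have hd : ph μ a b (q.1 v) - ph μ a b q.2 = cl a b (q.1 v) - cl a b q.2 := by
      unfold ph
      ring
    rw [hd]
    have hs := hsens q.1 q.2
    rcases le_total (q.1 v) q.2 with h | h
    · have h1 : H (Function.update q.1 v q.2) ≤ H q.1 := hanti q.1 q.2 h
      have h2 : cl a b (q.1 v) ≤ cl a b q.2 := cl_mono a b h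
      rw [abs_of_nonneg (by linarith : 0 ≤ H q.1 - H (Function.update q.1 v q.2))] at hs
      rw [abs_of_nonpos (by linarith : cl a b (q.1 v) - cl a b q.2 ≤ 0)]
      nlinarith
    · have h1 : H q.1 ≤ H (Function.update q.1 v q.2) := by
        have := hanti (Function.update q.1 v q.2) (q.1 v) (by simpa using h)
        simpa using this
      have h2 : cl a b q.2 ≤ cl a b (q.1 v) := cl_mono a b h
      rw [abs_of_nonpos (by linarith : H q.1 - H (Function.update q.1 v q.2) ≤ 0)] at hs
      rw [abs_of_nonneg (by linarith : 0 ≤ cl a b (q.1 v) - cl a b q.2)]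
      nlinarith
  -- the integral of the lower bound
  have mL : Measurable fun q : Env × ℝ => G q.1 * (min |q.1 v - q.2| 1 * |cl a b (q.1 v) - cl a b q.2|) := by
    have g1 : Measurable fun q : Env × ℝ => q.1 v := hev.comp measurable_fst
    have g2 : Measurable fun q : Env × ℝ => cl a b (q.1 v) := hcl.comp g1
    have g3 : Measurable fun q : Env × ℝ => cl a b q.2 := hcl.comp measurable_snd
    exact (hG.comp measurable_fst).mul
      (((g1.sub measurable_snd).abs.min measurable_const).mul (g2.sub g3).abs)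
  have clb : ∀ x t : ℝ, abs (min |x - t| 1 * |cl a b x - cl a b t|) ≤ b - a := by
    intro x t
    have h1 : |cl a b x - cl a b t| ≤ b - a := by
      rw [abs_le]
      constructor <;> linarith [cl_ge a b x, cl_ge a b t, cl_le hab.le x, cl_le hab.le t]
    have h2 : abs (min |x - t| 1) ≤ 1 := by
      rw [abs_of_nonneg (le_min (abs_nonneg _) zero_le_one)]
      exact min_le_right _ _
    rw [abs_mul, abs_abs]
    calc _ ≤ 1 * (b - a) := mul_le_mul h2 h1 (abs_nonneg _) zero_le_one
      _ = b - a := one_mul _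
  have iL : Integrable (fun q : Env × ℝ => G q.1 * (min |q.1 v - q.2| 1 * |cl a b (q.1 v) - cl a b q.2|))
      ((law μ).prod μ) := by
    have hG2 : Integrable (fun q : Env × ℝ => (b - a) * G q.1) ((law μ).prod μ) :=
      (hGi.comp_fst μ).const_mul _
    refine hG2.mono' mL.aestronglyMeasurable (ae_of_all _ fun q => ?_)
    rw [Real.norm_eq_abs, abs_mul, abs_of_nonneg (hG0 q.1), mul_comm]
    exact mul_le_mul_of_nonneg_right (clb _ _) (hG0 _)
  have hL : kap μ a b * ∫ η, G η ∂(law μ) ≤
      ∫ q : Env × ℝ, G q.1 * (min |q.1 v - q.2| 1 * |cl a b (q.1 v) - cl a b q.2|) ∂((law μ).prod μ) := by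
    rw [integral_prod _ iL, ← integral_const_mul]
    refine integral_mono_ae (hGi.const_mul _) iL.integral_prod_left (ae_of_all _ fun η => ?_)
    simp only [integral_const_mul]
    rw [mul_comm]
    exact mul_le_mul_of_nonneg_left (kap_le hab (η v)) (hG0 η)
  have iM : Integrable (fun q : Env × ℝ => (H q.1 - H (Function.update q.1 v q.2)) *
      (ph μ a b (q.1 v) - ph μ a b q.2)) ((law μ).prod μ) := by
    have h := (i1.sub i2).sub (i3.sub i4)
    refine h.congr (ae_of_all _ fun q => ?_)
    simp only [Pi.sub_apply]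
    ring
  have hfin := integral_mono iM iL.neg hpt
  rw [← hmain] at hfin
  have hneg : ∫ q : Env × ℝ, (-fun q : Env × ℝ => G q.1 * (min |q.1 v - q.2| 1 * |cl a b (q.1 v) - cl a b q.2|)) q
      ∂((law μ).prod μ) = -∫ q : Env × ℝ, G q.1 * (min |q.1 v - q.2| 1 * |cl a b (q.1 v) - cl a b q.2|)
        ∂((law μ).prod μ) := by
    simp only [Pi.neg_apply]
    exact integral_neg _
  rw [hneg] at hfin
  linarith

end

end Pool.Agent.W_7d29a1_Z17
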