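import Pool.Agent.W_7d29a1_Z17.TieW17

/-!
STORM Z, leaf TIE: the numbers. From the bound with the parameters `u`, `M` to the form with `L ^ ε`. (helper17)
-/

namespace Pool.Agent.W_7d29a1_Z17

open MeasureTheory Filter Topology Finset
open Pool.Agent.W_7d29a1_F Pool.Agent.W_7d29a1_X Pool.Agent.W_7d29a1_Z
open scoped ENNReal

noncomputable section

variable {μ : Measure ℝ}

theorem kr_nonneg (R : Set Pt) (η : Env) (a b : ℕ) (X : ℕ → ℤ) : 0 ≤ kr μ R η a b X := WR_nonneg _ _ _ _ _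

/-- Near ties of a larger depth are more frequent. -/
theorem NT_mono {N H : ℕ} {sg : ℤ} {J : Finset ℕ} {Y w : ℤ} {M M' : ℝ} (hM : M ≤ M') {η : Env} {S : Finset ℕ}
    (h : NT μ N H sg J Y w M η S) : NT μ N H sg J Y w M' η S := by
  obtain ⟨h1, a, b, h2, h3, h4, h5⟩ := h
  refine ⟨h1, a, b, h2, h3, h4, le_trans ?_ h5⟩
  exact mul_le_mul_of_nonneg_right (Real.exp_le_exp.2 (by linarith)) (kr_nonneg _ _ _ _ _)

/-- Numbers: a polynomial times a stretched exponential. -/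
theorem num_pow {K x : ℝ} (hK : 0 < K) (hx : 0 < x) : ∃ L₀ : ℕ, 1 ≤ L₀ ∧ ∀ L : ℕ, L₀ ≤ L →
    K * (L : ℝ) ^ (4 : ℕ) * Real.exp (-(L : ℝ) ^ x) ≤ Real.exp (-(L : ℝ) ^ (x / 2)) := by
  have h1 : Tendsto (fun L : ℕ => ((L : ℝ)) ^ (x / 2)) atTop atTop :=
    (tendsto_rpow_atTop (by positivity : 0 < x / 2)).comp tendsto_natCast_atTop_atTop
  have h2 : ∀ᶠ L : ℕ in atTop, Real.log (L : ℝ) ≤ 1 / 8 * ((L : ℝ)) ^ (x / 2) := by
    have h3 := (isLittleO_log_rpow_atTop (by positivity : 0 < x / 2)).bound (show (0 : ℝ) < 1 / 8 by norm_num)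
    have h4 := tendsto_natCast_atTop_atTop.eventually h3
    filter_upwards [h4, eventually_ge_atTop 1] with L hL hL1
    have h5 : (1 : ℝ) ≤ L := by exact_mod_cast hL1
    rw [Real.norm_of_nonneg (Real.log_nonneg h5), Real.norm_of_nonneg (by positivity)] at hL
    exact hL
  obtain ⟨L₁, hL₁⟩ := eventually_atTop.1 (h2.and (h1.eventually_ge_atTop (2 * |Real.log K| + 2)))
  refine ⟨L₁ + 1, by omega, fun L hL => ?_⟩
  have h3 := hL₁ L (by omega)
  have hL1 : (1 : ℝ) ≤ L := by exact_mod_cast (by omega : 1 ≤ L)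
  obtain ⟨z, hz⟩ : ∃ z, z = ((L : ℝ)) ^ (x / 2) := ⟨_, rfl⟩
  have hzz : ((L : ℝ)) ^ x = z * z := by
    rw [hz, ← Real.rpow_add (by linarith)]
    congr 1
    ring
  rw [← hz] at h3
  rw [hzz, ← hz]
  have h4 : K * (L : ℝ) ^ (4 : ℕ) = Real.exp (Real.log K + 4 * Real.log L) := by
    rw [Real.exp_add, Real.exp_log hK]
    congr 1
    rw [mul_comm, Real.exp_mul, Real.exp_log (by linarith)]
    norm_cast
  rw [h4, ← Real.exp_add]
  refine Real.exp_le_exp.2 ?_
  have h5 := le_abs_self (Real.log K)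
  have h6 := abs_nonneg (Real.log K)
  nlinarith [h3.1, h3.2]

/-- The form of `tie` from the bound with parameters. -/
theorem tie_of
    (hcore : ∃ K : ℝ, 0 < K ∧ ∀ (N : ℕ) (y : ℤ), 0 ≤ y → y ≤ N → ∀ (H : ℕ) (J : Finset ℕ), J.Nonempty →
      (∀ i ∈ J, 1 ≤ i ∧ i < N) → ∀ sg Y w : ℤ, (sg = 1 ∨ sg = -1) → 1 ≤ w → ∀ M : ℝ, 1 ≤ M →
      ∀ A : Env → Finset ℕ → Prop, Ms A → OffRows J A → ∀ u : ℝ, 0 ≤ u →
      P1 μ N y (fun η S => A η S ∧ NT μ N H sg J Y w M η S) ≤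
        ENNReal.ofReal (K * M * u * Real.sqrt (((w : ℝ) + 1) / J.card)) * P1 μ N y (fun η S => A η S ∧ InL sg J Y S) +
          ENNReal.ofReal (K * M * ((w : ℝ) + 1) * Real.exp (-2 * u ^ 2) + ((N : ℝ) + 1) ^ 2 * Real.exp (-M))) :
    ∀ ε : ℝ, 0 < ε → ∃ c : ℝ, 0 < c ∧ ∃ L₀ : ℕ, ∀ L : ℕ, L₀ ≤ L → ∀ N : ℕ, N ≤ L → ∀ y : ℤ, 0 ≤ y → y ≤ N →
      ∀ (H : ℕ) (J : Finset ℕ), J.Nonempty → (∀ i ∈ J, 1 ≤ i ∧ i < N) → ∀ sg Y w : ℤ, (sg = 1 ∨ sg = -1) → 1 ≤ w → w ≤ L →
      ∀ M : ℝ, 1 ≤ M → ∀ A : Env → Finset ℕ → Prop, Ms A → OffRows J A →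
      P1 μ N y (fun η S => A η S ∧ NT μ N H sg J Y w M η S) ≤
        ENNReal.ofReal ((L : ℝ) ^ ε * M * Real.sqrt ((w : ℝ) / J.card)) * P1 μ N y (fun η S => A η S ∧ InL sg J Y S) +
          ENNReal.ofReal (Real.exp (-(L : ℝ) ^ c)) := by
  obtain ⟨K, hK, hcore⟩ := hcore
  intro ε hε
  have h1 : Tendsto (fun L : ℕ => ((L : ℝ)) ^ (ε / 4)) atTop atTop :=
    (tendsto_rpow_atTop (by positivity : 0 < ε / 4)).comp tendsto_natCast_atTop_atTop
  obtain ⟨L₂, hL₂⟩ := eventually_atTop.1 (h1.eventually_ge_atTop (2 * K + 2))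
  obtain ⟨L₁, hL₁1, hL₁⟩ := num_pow (K := 2 * K + 4) (x := ε / 4) (by positivity) (by positivity)
  refine ⟨ε / 4 / 2, by positivity, L₁ + L₂, fun L hL N hN y hy0 hyN H J hJ hJN sg Y w hsg hw hwL M hM A hA hAJ => ?_⟩
  have hL1 : (1 : ℝ) ≤ L := by exact_mod_cast (by omega : 1 ≤ L)
  have hNL : (N : ℝ) ≤ L := by exact_mod_cast hN
  have hw1 : (1 : ℝ) ≤ w := by exact_mod_cast hw
  have hwL' : (w : ℝ) ≤ L := by exact_mod_cast hwL
  have hJ0 : (1 : ℝ) ≤ J.card := by exact_mod_cast hJ.card_pos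
  have hJL : (J.card : ℝ) ≤ L := by
    have h2 : J ⊆ range N := fun i hi => mem_range.2 (hJN i hi).2
    have h3 := card_le_card h2
    rw [card_range] at h3
    exact_mod_cast h3.trans hN
  have hg := hL₂ L (by omega)
  obtain ⟨g, hgd⟩ : ∃ g, g = ((L : ℝ)) ^ (ε / 4) := ⟨_, rfl⟩
  rw [← hgd] at hg
  have hg1 : 1 ≤ g := by linarith
  have hg4 : (L : ℝ) ^ ε = g * g * (g * g) := by
    rw [hgd, ← Real.rpow_add (by linarith), ← Real.rpow_add (by linarith)]
    congr 1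
    ring
  by_cases hbig : Real.sqrt J.card ≤ M
  · -- large depth: trivial
    have h0 : P1 μ N y (fun η S => A η S ∧ NT μ N H sg J Y w M η S) ≤ P1 μ N y (fun η S => A η S ∧ InL sg J Y S) :=
      P1_mono17 fun η S _ hS => ⟨hS.1, hS.2.1⟩
    refine h0.trans (le_trans ?_ (self_le_add_right _ _))
    have h2 : 1 ≤ (L : ℝ) ^ ε * M * Real.sqrt ((w : ℝ) / J.card) := by
      have h3 : 1 ≤ M * Real.sqrt ((w : ℝ) / J.card) := by
        rw [Real.sqrt_div (by linarith)]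
        have h4 : 0 < Real.sqrt (J.card : ℝ) := Real.sqrt_pos.2 (by linarith)
        have h5 : 1 ≤ Real.sqrt (w : ℝ) := by
          rw [Real.one_le_sqrt]
          exact hw1
        rw [← mul_div_assoc, le_div_iff₀ h4, one_mul]
        nlinarith
      have h4 : 1 ≤ (L : ℝ) ^ ε := Real.one_le_rpow hL1 hε.le
      nlinarith
    calc P1 μ N y (fun η S => A η S ∧ InL sg J Y S) = 1 * P1 μ N y (fun η S => A η S ∧ InL sg J Y S) := (one_mul _).symm
      _ ≤ _ := mul_le_mul_left (by rw [← ENNReal.ofReal_one]; exact ENNReal.ofReal_le_ofReal h2) _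
  · push Not at hbig
    have hML : M ≤ L := by
      refine hbig.le.trans ?_
      rw [Real.sqrt_le_left (by linarith)]
      nlinarith
    have hMg : M ≤ M * g := by nlinarith
    have hMg1 : 1 ≤ M * g := by nlinarith
    have h2 := hcore N y hy0 hyN H J hJ hJN sg Y w hsg hw (M * g) hMg1 A hA hAJ g (by linarith)
    refine le_trans (P1_mono17 fun η S _ hS => ⟨hS.1, NT_mono hMg hS.2⟩) (h2.trans (add_le_add ?_ ?_))
    · refine mul_le_mul_left (ENNReal.ofReal_le_ofReal ?_) _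
      have h3 : Real.sqrt (((w : ℝ) + 1) / J.card) ≤ 2 * Real.sqrt ((w : ℝ) / J.card) := by
        have h4 : ((w : ℝ) + 1) / J.card ≤ 2 ^ 2 * ((w : ℝ) / J.card) := by
          rw [← mul_div_assoc]
          exact div_le_div_of_nonneg_right (by linarith) (by linarith)
        refine (Real.sqrt_le_sqrt h4).trans ?_
        rw [Real.sqrt_mul (by norm_num), Real.sqrt_sq (by norm_num)]
      rw [hg4]
      have hs0 : 0 ≤ Real.sqrt ((w : ℝ) / J.card) := Real.sqrt_nonneg _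
      calc K * (M * g) * g * Real.sqrt (((w : ℝ) + 1) / J.card) ≤ K * (M * g) * g * (2 * Real.sqrt ((w : ℝ) / J.card)) :=
            mul_le_mul_of_nonneg_left h3 (by positivity)
        _ = (2 * K) * (M * (g * g) * Real.sqrt ((w : ℝ) / J.card)) := by ring
        _ ≤ (g * g) * (M * (g * g) * Real.sqrt ((w : ℝ) / J.card)) := by
            refine mul_le_mul_of_nonneg_right ?_ (by positivity)
            nlinarith
        _ = _ := by ring
    · refine ENNReal.ofReal_le_ofReal (le_trans ?_ (hL₁ L (by omega)))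
      rw [← hgd]
      have hg0 : 0 < g := by linarith
      have e1 : g * Real.exp (-2 * g ^ 2) ≤ Real.exp (-g) := by
        have h3 : g ≤ Real.exp g := by
          have := Real.add_one_le_exp g
          linarith
        calc g * Real.exp (-2 * g ^ 2) ≤ Real.exp g * Real.exp (-2 * g ^ 2) :=
              mul_le_mul_of_nonneg_right h3 (Real.exp_pos _).le
          _ = Real.exp (g + -2 * g ^ 2) := (Real.exp_add _ _).symm
          _ ≤ Real.exp (-g) := Real.exp_le_exp.2 (by nlinarith)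
      have e2 : Real.exp (-(M * g)) ≤ Real.exp (-g) := Real.exp_le_exp.2 (by nlinarith)
      have hE0 : 0 ≤ Real.exp (-g) := (Real.exp_pos _).le
      have hL2 : (L : ℝ) * L ≤ (L : ℝ) ^ (4 : ℕ) := by nlinarith [mul_self_nonneg ((L : ℝ) * L - 1), mul_self_nonneg ((L : ℝ))]
      have e3 : K * (M * g) * ((w : ℝ) + 1) * Real.exp (-2 * g ^ 2) ≤ 2 * K * (L * L) * Real.exp (-g) := by
        calc K * (M * g) * ((w : ℝ) + 1) * Real.exp (-2 * g ^ 2) = K * (M * ((w : ℝ) + 1)) * (g * Real.exp (-2 * g ^ 2)) := by ring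
          _ ≤ K * (M * ((w : ℝ) + 1)) * Real.exp (-g) := mul_le_mul_of_nonneg_left e1 (by positivity)
          _ ≤ K * (L * (2 * L)) * Real.exp (-g) := by
              refine mul_le_mul_of_nonneg_right (mul_le_mul_of_nonneg_left ?_ hK.le) hE0
              exact mul_le_mul hML (by linarith) (by linarith) (by linarith)
          _ = _ := by ring
      have e4 : ((N : ℝ) + 1) ^ 2 * Real.exp (-(M * g)) ≤ 4 * (L * L) * Real.exp (-g) := by
        have h3 : ((N : ℝ) + 1) ^ 2 ≤ 4 * (L * L) := by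
          have h4 : (0 : ℝ) ≤ N := Nat.cast_nonneg N
          nlinarith
        exact mul_le_mul h3 e2 (Real.exp_pos _).le (by positivity)
      calc K * (M * g) * ((w : ℝ) + 1) * Real.exp (-2 * g ^ 2) + ((N : ℝ) + 1) ^ 2 * Real.exp (-(M * g)) ≤
          2 * K * (L * L) * Real.exp (-g) + 4 * (L * L) * Real.exp (-g) := add_le_add e3 e4
        _ = (2 * K + 4) * (L * L) * Real.exp (-g) := by ring
        _ ≤ (2 * K + 4) * (L : ℝ) ^ (4 : ℕ) * Real.exp (-g) :=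
            mul_le_mul_of_nonneg_right (mul_le_mul_of_nonneg_left hL2 (by positivity)) hE0

end

end Pool.Agent.W_7d29a1_Z17
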